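import Pool.Agent.H283.HT.Stm

/-!
# Project HT, L2: horizontal normals (helper588)
-/

set_option autoImplicit false

namespace Pool.Agent.H588.HTL2

open Pool.Agent.H283.HT

theorem dt_add (ν u v : P2) : dt ν (u + v) = dt ν u + dt ν v := by
  simp only [dt, Prod.fst_add, Prod.snd_add]
  ring

theorem dt_smul (ν u : P2) (c : ℝ) : dt ν (c • u) = c * dt ν u := by
  simp only [dt, Prod.smul_fst, Prod.smul_snd, smul_eq_mul]
  ring

theorem dt_neg (ν u : P2) : dt ν (-u) = - dt ν u := by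
  simp only [dt, Prod.fst_neg, Prod.snd_neg]
  ring

/-- the arithmetic of the first part -/
theorem arith {AB TB AT X Y M : ℝ} (hAB : 0 < AB) (hTB : 0 ≤ TB) (hAT : 0 ≤ AT)
    (h1 : AB * M = TB * X + AT * Y) (h3 : -X ≤ M) (h5 : -Y ≤ M)
    (h6 : TB ≤ AT + AB) (h7 : AT ≤ TB + AB) : 0 ≤ X + Y := by
  by_contra hlt
  rw [not_le] at hlt
  have h8 : AB * (-Y) ≤ AB * M := mul_le_mul_of_nonneg_left h5 hAB.le
  have h9 : AB * (-X) ≤ AB * M := mul_le_mul_of_nonneg_left h3 hAB.le
  rcases le_total Y X with h | h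
  · have hY : Y < 0 := by linarith
    have hAY : 0 < AB * (-Y) := mul_pos hAB (by linarith)
    rcases le_or_gt X 0 with hX | hX
    · have h10 : TB * X ≤ 0 := mul_nonpos_of_nonneg_of_nonpos hTB hX
      have h11 : AT * Y ≤ 0 := mul_nonpos_of_nonneg_of_nonpos hAT hY.le
      linarith
    · have h10 : (AB + AT) * X < (AB + AT) * (-Y) :=
        mul_lt_mul_of_pos_left (by linarith) (by linarith)
      have h11 : TB * X ≤ (AT + AB) * X := mul_le_mul_of_nonneg_right h6 hX.le
      nlinarith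
  · have hX : X < 0 := by linarith
    have hAX : 0 < AB * (-X) := mul_pos hAB (by linarith)
    rcases le_or_gt Y 0 with hY | hY
    · have h10 : TB * X ≤ 0 := mul_nonpos_of_nonneg_of_nonpos hTB hX.le
      have h11 : AT * Y ≤ 0 := mul_nonpos_of_nonneg_of_nonpos hAT hY
      linarith
    · have h10 : (AB + TB) * Y < (AB + TB) * (-X) :=
        mul_lt_mul_of_pos_left (by linarith) (by linarith)
      have h11 : AT * Y ≤ (TB + AB) * Y := mul_le_mul_of_nonneg_right h7 hY.le
      nlinarith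

theorem L2_done (hPOS : S_POS) (hTR4 : S_TR4) : S_L2 := by
  intro Q q hQ hq a b t ν hab hb hat htb hmax
  obtain ⟨p1, -, p3, -, -, p6⟩ := hPOS Q q hQ hq
  obtain ⟨-, t2, t3, -⟩ := hTR4 Q q hQ hq
  have hAB := p1 a b hab hb
  have hTB := p6 t b htb (by linarith)
  have hAT := p6 a t hat (by linarith)
  have h6 := t2 a b t hat htb hb.le
  have h7 := t3 a b t hat htb hb.le
  have h1 := congrArg (dt ν) (p3 a b t)
  rw [dt_add, dt_smul, dt_smul, dt_smul] at h1
  have h3 := hmax (-(q a)) (hQ.sym _ (hq.mem a))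
  have h5 := hmax (-(q b)) (hQ.sym _ (hq.mem b))
  rw [dt_neg] at h3 h5
  rw [dt_add]
  refine ⟨arith hAB hTB hAT h1 h3 h5 h6 h7, fun h8 h9 p hp => (hmax p hp).trans ?_⟩
  have hX : dt ν (q a) = - dt ν (q b) := by linarith
  rw [hX] at h1
  have h10 : (det (q a) (q t)) * dt ν (q b) ≤ (det (q t) (q b) + det (q a) (q b)) * dt ν (q b) :=
    mul_le_mul_of_nonneg_right h7 h9.le
  have h11 : det (q a) (q b) * dt ν (q t) ≤ det (q a) (q b) * dt ν (q b) := by
    rw [h1]
    linarith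
  exact le_of_mul_le_mul_left h11 hAB

end Pool.Agent.H588.HTL2
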