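import Pool.Agent.H867.FT.Gen3

/-!
# `S_CAN` of helper867 (MP_7dd379_ag): the codifferent is `Hom_P(R, P)`.
-/

namespace Pool.Agent.H588.FT867CAN

open Pool.Agent.H867.FT

/-- the codifferent, as an `R`-submodule of `K` -/
def codiff (P R L K : Type) [CommRing P] [CommRing R] [Algebra P R] [Field L] [Algebra P L]
    [Field K] [Algebra R K] [Algebra L K] : Submodule R K where
  carrier := {y | ∀ r : R, ∃ g : P, algebraMap P L g = Algebra.trace L K (y * algebraMap R K r)}
  add_mem' := by
    intro a b ha hb r
    obtain ⟨g, hg⟩ := ha r
    obtain ⟨h, hh⟩ := hb r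
    exact ⟨g + h, by rw [map_add, hg, hh, add_mul, map_add]⟩
  zero_mem' := fun r => ⟨0, by rw [map_zero, zero_mul, map_zero]⟩
  smul_mem' := by
    intro s y hy r
    obtain ⟨g, hg⟩ := hy (s * r)
    refine ⟨g, ?_⟩
    have h1 : s • y * algebraMap R K r = y * algebraMap R K (s * r) := by
      rw [Algebra.smul_def, map_mul]
      ring
    rw [hg, h1]

theorem mem_codiff {P R L K : Type} [CommRing P] [CommRing R] [Algebra P R] [Field L]
    [Algebra P L] [Field K] [Algebra R K] [Algebra L K] (y : K) :
    y ∈ codiff P R L K ↔
      ∀ r : R, ∃ g : P, algebraMap P L g = Algebra.trace L K (y * algebraMap R K r) := Iff.rfl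

section

variable {P R L K : Type} [CommRing P] [IsDomain P] [CommRing R] [IsDomain R]
    [Algebra P R] [Module.Finite P R] [FaithfulSMul P R] [Field L]
    [Algebra P L] [IsFractionRing P L]
    [Field K] [Algebra R K] [IsFractionRing R K] [Algebra P K] [IsScalarTower P R K]
    [Algebra L K] [IsScalarTower P L K]

omit [IsDomain P] [IsDomain R] [Module.Finite P R] [FaithfulSMul P R] [IsFractionRing P L]
  [IsFractionRing R K] in
theorem trace_smul (y : K) (g : P) (r : R) :
    Algebra.trace L K (y * algebraMap R K (g • r)) =
      algebraMap P L g * Algebra.trace L K (y * algebraMap R K r) := by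
  have h1 : y * algebraMap R K (g • r) = algebraMap P L g • (y * algebraMap R K r) := by
    rw [Algebra.smul_def, map_mul, ← IsScalarTower.algebraMap_apply P R K, Algebra.smul_def,
      ← IsScalarTower.algebraMap_apply P L K]
    ring
  rw [h1, map_smul, smul_eq_mul]

/-- the value `g` with `g = Tr(y r)` -/
noncomputable def val (y : codiff P R L K) (r : R) : P := Classical.choose (y.2 r)

omit [IsDomain P] [IsDomain R] [Module.Finite P R] [FaithfulSMul P R] [IsFractionRing P L]
  [IsFractionRing R K] [Algebra P K] [IsScalarTower P R K] [IsScalarTower P L K] in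
theorem val_spec (y : codiff P R L K) (r : R) :
    algebraMap P L (val y r) = Algebra.trace L K (y * algebraMap R K r) :=
  Classical.choose_spec (y.2 r)

/-- the map `y ↦ (r ↦ Tr(y r))` -/
noncomputable def toHom : codiff P R L K →+ (R →ₗ[P] P) where
  toFun y :=
    { toFun := val y
      map_add' := fun a b => by
        apply IsFractionRing.injective P L
        rw [map_add, val_spec, val_spec, val_spec, map_add, mul_add, map_add]
      map_smul' := fun g r => by
        apply IsFractionRing.injective P L
        rw [RingHom.id_apply, smul_eq_mul, map_mul, val_spec, val_spec, trace_smul] }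
  map_zero' := by
    ext r
    apply IsFractionRing.injective P L
    change algebraMap P L (val (0 : codiff P R L K) r) = algebraMap P L 0
    rw [val_spec, Submodule.coe_zero, zero_mul, map_zero, map_zero]
  map_add' := fun a b => by
    ext r
    apply IsFractionRing.injective P L
    change algebraMap P L (val (a + b) r) = algebraMap P L (val a r + val b r)
    rw [map_add, val_spec, val_spec, val_spec, Submodule.coe_add, add_mul, map_add]

omit [IsDomain P] [IsDomain R] [Module.Finite P R] [FaithfulSMul P R] [IsFractionRing R K] in
theorem toHom_apply (y : codiff P R L K) (r : R) : toHom y r = val y r := rfl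

variable [FiniteDimensional L K] [Algebra.IsSeparable L K]

theorem isBC (P R L K : Type) [CommRing P] [IsDomain P] [CommRing R] [IsDomain R]
    [Algebra P R] [Module.Finite P R] [FaithfulSMul P R] [Field L]
    [Algebra P L] [IsFractionRing P L]
    [Field K] [Algebra R K] [IsFractionRing R K] [Algebra P K] [IsScalarTower P R K]
    [Algebra L K] [IsScalarTower P L K] :
    IsBaseChange L (IsScalarTower.toAlgHom P R K).toLinearMap :=
  Algebra.IsAlgebraic.isBaseChange_of_isFractionRing P R L K

theorem toHom_injective : Function.Injective (toHom : codiff P R L K →+ (R →ₗ[P] P)) := by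
  rw [injective_iff_map_eq_zero]
  intro y hy
  have h1 : ∀ r : R, Algebra.trace L K ((y : K) * algebraMap R K r) = 0 := by
    intro r
    rw [← val_spec, ← toHom_apply, hy, LinearMap.zero_apply, map_zero]
  have h2 : (Algebra.traceForm L K) (y : K) = 0 := by
    refine (isBC P R L K).algHom_ext _ _ ?_
    intro r
    rw [LinearMap.zero_apply, Algebra.traceForm_apply]
    exact h1 r
  have h3 : (y : K) = 0 := by
    have h4 := (traceForm_nondegenerate L K).1 (y : K) fun z => by rw [h2]; rfl
    exact h4
  exact Subtype.ext h3

theorem toHom_surjective : Function.Surjective (toHom : codiff P R L K →+ (R →ₗ[P] P)) := by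
  intro l
  set Λ : K →ₗ[L] L := (isBC P R L K).lift ((Algebra.linearMap P L).comp l) with hΛ
  have h1 : ∀ r : R, Λ (algebraMap R K r) = algebraMap P L (l r) := by
    intro r
    exact (isBC P R L K).lift_eq _ r
  set y : K := ((Algebra.traceForm L K).toDual (traceForm_nondegenerate L K)).symm Λ with hy
  have h2 : ∀ z : K, Algebra.trace L K (y * z) = Λ z := by
    intro z
    rw [← Algebra.traceForm_apply]
    exact LinearMap.BilinForm.apply_toDual_symm_apply Λ z
  have h3 : y ∈ codiff P R L K := fun r => ⟨l r, by rw [h2, h1]⟩
  refine ⟨⟨y, h3⟩, ?_⟩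
  ext r
  apply IsFractionRing.injective P L
  rw [toHom_apply, val_spec, ← h1, ← h2]

end

theorem can : S_CAN := by
  intro P R L K _ _ _ _ _ _ _ _ _ _ _ _ _ _ _ _ _ _ _ _
  refine ⟨codiff P R L K, fun y => Iff.rfl,
    AddEquiv.ofBijective toHom ⟨toHom_injective, toHom_surjective⟩, ?_⟩
  intro r y s
  change val (r • y) s = val y (r * s)
  apply IsFractionRing.injective P L
  have h1 : ((r • y : codiff P R L K) : K) * algebraMap R K s = y * algebraMap R K (r * s) := by
    rw [Submodule.coe_smul, Algebra.smul_def, map_mul]
    ring
  rw [val_spec, val_spec, h1]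

end Pool.Agent.H588.FT867CAN
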