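import Mathlib
import Pool.Agent.H193.RF.NV

/-!
# The groups `Gr k n` are finitely generated (helper588, for helper193)
-/

set_option autoImplicit false
set_option linter.unusedSectionVars false

namespace Pool.Agent.H588.RFFG

open Pool.Agent.H197R3 (XX Quad gg GG Inv' phi pb pb_mul vv gg_injective)
open Pool.Agent.H258.CR
open Pool.Agent.H193.RF
open SemidirectProduct Polynomial

section gen
variable {R : Type} [Ring R] {𝔾 : Type} [Group 𝔾]

lemma ee_self {i j : Fin 3} (h : i ≠ j) (s : R) :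
    (ee h s : Lam R) • (Pi.single j 1 : V3 R) = Pi.single j 1 + Pi.single i s := by
  rw [ee_smul, Pi.single_eq_same, mul_one]

lemma ee_other {i j l : Fin 3} (h : i ≠ j) (hl : l ≠ j) (s r : R) :
    (ee h s : Lam R) • (Pi.single l r : V3 R) = Pi.single l r := by
  rw [ee_smul, Pi.single_eq_of_ne hl.symm, mul_zero, Pi.single_zero, add_zero]

lemma sum_sv (a : V3 R) : a = Pi.single 0 (a 0) + Pi.single 1 (a 1) + Pi.single 2 (a 2) := by
  funext i
  fin_cases i <;> simp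

/-- additive maps -/
lemma add_all (N : Subgroup 𝔾) (lam : Lam R →* 𝔾) (hlam : ∀ g, lam g ∈ N) (U : V3 R → 𝔾)
    (hU : ∀ a b, U (a + b) = U a * U b) (hc : ∀ g a, lam g * U a * (lam g)⁻¹ = U (g • a))
    (he : ∀ i, U (Pi.single i 1) ∈ N) (a : V3 R) : U a ∈ N := by
  have h1 : ∀ (i : Fin 3) (r : R), U (Pi.single i r) ∈ N := by
    intro i r
    obtain ⟨j, hj⟩ : ∃ j : Fin 3, i ≠ j := by revert i; decide
    have h2 : U ((ee hj r : Lam R) • (Pi.single j 1 : V3 R)) ∈ N := by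
      rw [← hc]
      exact N.mul_mem (N.mul_mem (hlam _) (he j)) (N.inv_mem (hlam _))
    rw [ee_self, hU] at h2
    exact (N.mul_mem_cancel_left (he j)).1 h2
  rw [sum_sv a, hU, hU]
  exact N.mul_mem (N.mul_mem (h1 _ _) (h1 _ _)) (h1 _ _)

/-- biadditive maps -/
lemma biadd_all (N : Subgroup 𝔾) (lam : Lam R →* 𝔾) (hlam : ∀ g, lam g ∈ N)
    (Z : V3 R → V3 R → 𝔾) (hZ : ∀ a a' b, Z (a + a') b = Z a b * Z a' b)
    (hZ' : ∀ a b b', Z a (b + b') = Z a b * Z a b')
    (hc : ∀ g a b, lam g * Z a b * (lam g)⁻¹ = Z (g • a) (g • b))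
    (he : ∀ i j, Z (Pi.single i 1) (Pi.single j 1) ∈ N) (a b : V3 R) : Z a b ∈ N := by
  have hg : ∀ (g : Lam R) (a b : V3 R), Z a b ∈ N → Z (g • a) (g • b) ∈ N := by
    intro g a b h
    rw [← hc]
    exact N.mul_mem (N.mul_mem (hlam _) h) (N.inv_mem (hlam _))
  have h1 : ∀ (l j : Fin 3) (r : R), l ≠ j → Z (Pi.single l r) (Pi.single j 1) ∈ N := by
    intro l j r hlj
    obtain ⟨i, hli, hij⟩ : ∃ i : Fin 3, l ≠ i ∧ j ≠ i := by revert l j; decide
    have h2 := hg (ee hli r) _ _ (he i j)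
    rw [ee_self, ee_other hli hij, hZ] at h2
    exact (N.mul_mem_cancel_left (he i j)).1 h2
  have h2 : ∀ (l j : Fin 3) (r s : R), l ≠ j → Z (Pi.single l r) (Pi.single j s) ∈ N := by
    intro l j r s hlj
    obtain ⟨i, hli, hji⟩ : ∃ i : Fin 3, l ≠ i ∧ j ≠ i := by revert l j; decide
    have h3 := hg (ee hji s) _ _ (h1 l i r hli)
    rw [ee_self, ee_other hji hli, hZ'] at h3
    exact (N.mul_mem_cancel_left (h1 l i r hli)).1 h3
  have h3 : ∀ (i : Fin 3) (r s : R), Z (Pi.single i r) (Pi.single i s) ∈ N := by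
    intro i r s
    obtain ⟨j, hij⟩ : ∃ j : Fin 3, i ≠ j := by revert i; decide
    have h4 := hg (ee hij s) _ _ (h1 i j r hij)
    rw [ee_self, ee_other hij hij, hZ'] at h4
    exact (N.mul_mem_cancel_left (h1 i j r hij)).1 h4
  have h4 : ∀ (l j : Fin 3) (r s : R), Z (Pi.single l r) (Pi.single j s) ∈ N := by
    intro l j r s
    by_cases h : l = j
    · subst h
      exact h3 l r s
    · exact h2 l j r s h
  have h5 : ∀ (l : Fin 3) (r : R) (b : V3 R), Z (Pi.single l r) b ∈ N := by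
    intro l r b
    rw [sum_sv b, hZ', hZ']
    exact N.mul_mem (N.mul_mem (h4 _ _ _ _) (h4 _ _ _ _)) (h4 _ _ _ _)
  rw [sum_sv a, hZ, hZ]
  exact N.mul_mem (N.mul_mem (h5 _ _ _) (h5 _ _ _)) (h5 _ _ _)

/-- maps with biadditive defect -/
lemma quad_all (N : Subgroup 𝔾) (lam : Lam R →* 𝔾) (hlam : ∀ g, lam g ∈ N) (U : V3 R → 𝔾)
    (hZ : ∀ a b, zz U a b ∈ N) (hc : ∀ g a, lam g * U a * (lam g)⁻¹ = U (g • a))
    (he : ∀ i, U (Pi.single i 1) ∈ N) (a : V3 R) : U a ∈ N := by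
  have hadd : ∀ a b : V3 R, U a ∈ N → U b ∈ N → U (a + b) ∈ N := by
    intro a b ha hb
    have h1 : (U (a + b))⁻¹ ∈ N := by
      have h2 := hZ a b
      unfold zz at h2
      exact (N.mul_mem_cancel_left (N.mul_mem ha hb)).1 h2
    exact (N.inv_mem_iff).1 h1
  have h1 : ∀ (i : Fin 3) (r : R), U (Pi.single i r) ∈ N := by
    intro i r
    obtain ⟨j, hj⟩ : ∃ j : Fin 3, i ≠ j := by revert i; decide
    have h2 : U ((ee hj r : Lam R) • (Pi.single j 1 : V3 R)) ∈ N := by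
      rw [← hc]
      exact N.mul_mem (N.mul_mem (hlam _) (he j)) (N.inv_mem (hlam _))
    rw [ee_self] at h2
    have h3 := hZ (Pi.single j 1) (Pi.single i r)
    unfold zz at h3
    have h4 := (N.mul_mem_cancel_right (N.inv_mem h2)).1 h3
    exact (N.mul_mem_cancel_left (he j)).1 h4
  rw [sum_sv a]
  exact hadd _ _ (hadd _ _ (h1 _ _) (h1 _ _)) (h1 _ _)

end gen

section main
variable {k R : Type} [Field k] [CommRing R] [Algebra k R] {x y : R} (p : V3 R →+ V3 R)
  (hp : ∀ (g : Lam R) (a : V3 R), p (g • a) = g • p a)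

/-- the defect of additivity of `up` in the group -/
noncomputable abbrev ZZ (a b : V3 R) : Gp p hp := zz (fun a => (inl (uP p a) : Gp p hp)) a b

lemma ZZ_eq (a b : V3 R) : ZZ p hp a b = inl (uP p a * uP p b * (uP p (a + b))⁻¹) := by
  unfold ZZ zz
  rw [map_mul, map_mul, map_inv]

lemma ZZ_add (a a' b : V3 R) : ZZ p hp (a + a') b = ZZ p hp a b * ZZ p hp a' b := by
  rw [ZZ_eq, ZZ_eq, ZZ_eq, ← map_mul]
  congr 1
  apply Subtype.ext
  exact zz_up_add p a a' b

lemma ZZ_symm (a b : V3 R) : ZZ p hp a b = ZZ p hp b a := by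
  rw [ZZ_eq, ZZ_eq, mul_comm (uP p a), add_comm]

lemma uP_phi (g : Lam R) (c : V3 R) :
    phi (Mp p) (inv_Mp p hp) g (uP p c) = uP p (g • c) := by
  apply Subtype.ext
  funext x
  show Pool.Agent.H197R3.tw2 (x.1 (g • p c)) * Pool.Agent.H197R3.sg (x.2.1 (g • c)) =
        Pool.Agent.H197R3.tw2 (x.1 (p (g • c))) * Pool.Agent.H197R3.sg (x.2.1 (g • c))
  rw [hp]

lemma conj_u (g : Lam R) (a : V3 R) :
    (inr g : Gp p hp) * inl (uP p a) * (inr g)⁻¹ = inl (uP p (g • a)) := by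
  rw [conj_inl p hp, right_inr, uP_phi p hp]

lemma conj_g (g : Lam R) (a : V3 R) :
    (inr g : Gp p hp) * inl (gP p a) * (inr g)⁻¹ = inl (gP p (g • a)) := by
  rw [conj_inl p hp, right_inr, gP_phi p hp]

lemma conj_Z (g : Lam R) (a b : V3 R) :
    (inr g : Gp p hp) * ZZ p hp a b * (inr g)⁻¹ = ZZ p hp (g • a) (g • b) := by
  show (inr g : Gp p hp) * (inl (uP p a) * inl (uP p b) * (inl (uP p (a + b)))⁻¹) * (inr g)⁻¹ =
    inl (uP p (g • a)) * inl (uP p (g • b)) * (inl (uP p (g • a + g • b)))⁻¹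
  rw [← smul_add, ← conj_u p hp, ← conj_u p hp, ← conj_u p hp]
  group

theorem top_of (hgen : Algebra.adjoin k {x, y} = (⊤ : Subalgebra k R)) (N : Subgroup (Gp p hp))
    (h01 : ∀ a, (inr (xh (by decide : (0 : Fin 3) ≠ 1) (ιC k R) a) : Gp p hp) ∈ N)
    (h12 : ∀ a, (inr (xh (by decide : (1 : Fin 3) ≠ 2) (ιC k R) a) : Gp p hp) ∈ N)
    (h20 : ∀ a, (inr (xh (by decide : (2 : Fin 3) ≠ 0) (ι3 (k := k) x y) a) : Gp p hp) ∈ N)
    (hg : ∀ i, (inl (gP p (Pi.single i 1)) : Gp p hp) ∈ N)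
    (hu : ∀ i, (inl (uP p (Pi.single i 1)) : Gp p hp) ∈ N)
    (hz : ∀ i j, ZZ p hp (Pi.single i 1) (Pi.single j 1) ∈ N) : N = ⊤ := by
  have hlam : ∀ g : Lam R, (inr : Lam R →* Gp p hp) g ∈ N := fun g =>
    Lam_gen hgen (N.comap (inr : Lam R →* Gp p hp)) h01 h12 h20 g
  have hG : ∀ a : V3 R, (inl (gP p a) : Gp p hp) ∈ N :=
    add_all N inr hlam (fun a => inl (gP p a)) (fun a b => by rw [gP_add, map_mul])
      (conj_g p hp) hg
  have hZ : ∀ a b : V3 R, ZZ p hp a b ∈ N :=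
    biadd_all N inr hlam (ZZ p hp) (ZZ_add p hp)
      (fun a b b' => by rw [ZZ_symm, ZZ_add, ZZ_symm p hp b, ZZ_symm p hp b']) (conj_Z p hp) hz
  have hU : ∀ a : V3 R, (inl (uP p a) : Gp p hp) ∈ N :=
    quad_all N inr hlam (fun a => inl (uP p a)) hZ (conj_u p hp) hu
  have hM : ∀ m : Mp p, (inl m : Gp p hp) ∈ N := by
    rintro ⟨m, hm⟩
    induction hm using Subgroup.closure_induction with
    | mem z hz =>
      rcases hz with ⟨a, rfl⟩ | ⟨a, rfl⟩
      · exact hG a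
      · exact hU a
    | one =>
      rw [show (⟨1, one_mem _⟩ : Mp p) = 1 from rfl, map_one]
      exact one_mem _
    | mul q r hp' hq' hp hq =>
      have e : (⟨q * r, mul_mem hp' hq'⟩ : Mp p) = ⟨q, hp'⟩ * ⟨r, hq'⟩ := rfl
      rw [e, map_mul]
      exact mul_mem hp hq
    | inv q hp' hp =>
      have e : (⟨q⁻¹, inv_mem hp'⟩ : Mp p) = (⟨q, hp'⟩ : Mp p)⁻¹ := rfl
      rw [e, map_inv]
      exact inv_mem hp
  rw [eq_top_iff]
  intro z _
  rw [← inl_left_mul_inr_right z]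
  exact N.mul_mem (hM _) (hlam _)

theorem fg_of [Finite k] (hgen : Algebra.adjoin k {x, y} = (⊤ : Subalgebra k R)) :
    Group.FG (Gp p hp) := by
  have h0 : (0 : Fin 3) ≠ 1 := by decide
  have h1 : (1 : Fin 3) ≠ 2 := by decide
  have h2 : (2 : Fin 3) ≠ 0 := by decide
  let S : Set (Gp p hp) :=
    Set.range (fun a : Multiplicative k => (inr (xh h0 (ιC k R) a) : Gp p hp)) ∪
    Set.range (fun a : Multiplicative k => (inr (xh h1 (ιC k R) a) : Gp p hp)) ∪
    Set.range (fun a : Multiplicative (k × k × k) =>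
      (inr (xh h2 (ι3 (k := k) x y) a) : Gp p hp)) ∪
    Set.range (fun i : Fin 3 => (inl (gP p (Pi.single i 1)) : Gp p hp)) ∪
    Set.range (fun i : Fin 3 => (inl (uP p (Pi.single i 1)) : Gp p hp)) ∪
    Set.range (fun i : Fin 3 × Fin 3 => ZZ p hp (Pi.single i.1 1) (Pi.single i.2 1))
  have hk1 : Finite (Multiplicative k) := inferInstanceAs (Finite k)
  have hk3 : Finite (Multiplicative (k × k × k)) := inferInstanceAs (Finite (k × k × k))
  refine Group.fg_iff.2 ⟨S, ?_, ?_⟩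
  · refine top_of (k := k) (x := x) (y := y) p hp hgen _ (fun a => Subgroup.subset_closure ?_)
      (fun a => Subgroup.subset_closure ?_) (fun a => Subgroup.subset_closure ?_)
      (fun i => Subgroup.subset_closure ?_) (fun i => Subgroup.subset_closure ?_)
      (fun i j => Subgroup.subset_closure ?_)
    · exact Or.inl (Or.inl (Or.inl (Or.inl (Or.inl ⟨a, rfl⟩))))
    · exact Or.inl (Or.inl (Or.inl (Or.inl (Or.inr ⟨a, rfl⟩))))
    · exact Or.inl (Or.inl (Or.inl (Or.inr ⟨a, rfl⟩)))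
    · exact Or.inl (Or.inl (Or.inr ⟨i, rfl⟩))
    · exact Or.inl (Or.inr ⟨i, rfl⟩)
    · exact Or.inr ⟨(i, j), rfl⟩
  · exact (((((Set.finite_range _).union (Set.finite_range _)).union (Set.finite_range _)).union
      (Set.finite_range _)).union (Set.finite_range _)).union (Set.finite_range _)

end main

lemma RR_gen {k : Type} [Field k] :
    Algebra.adjoin k {(C X : RR k), (X : RR k)} = (⊤ : Subalgebra k (RR k)) := by
  rw [eq_top_iff]
  intro f _
  have hC : ∀ g : Polynomial k, (C g : RR k) ∈ Algebra.adjoin k {(C X : RR k), (X : RR k)} := by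
    intro g
    induction g using Polynomial.induction_on' with
    | add p q hp hq => rw [C_add]; exact add_mem hp hq
    | monomial n a =>
      rw [← C_mul_X_pow_eq_monomial, C_mul, C_pow]
      refine mul_mem ?_ (pow_mem (Algebra.subset_adjoin (by simp)) _)
      exact Subalgebra.algebraMap_mem _ a
  induction f using Polynomial.induction_on' with
  | add p q hp hq => exact add_mem (hp trivial) (hq trivial)
  | monomial n a =>
    rw [← C_mul_X_pow_eq_monomial]
    exact mul_mem (hC a) (pow_mem (Algebra.subset_adjoin (by simp)) _)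

/-- **FG.** The groups `Gr k n` are finitely generated. -/
theorem s_FG : Pool.Agent.H193.RF.S_FG := by
  intro k _ _ _ n
  exact fg_of (k := k) (pY k n) (pY_smul n) RR_gen

end Pool.Agent.H588.RFFG
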