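import Pool.Agent.H770.SN.Stm

/-!
# Iteration of the Steiner symmetrization (SN6)
-/

set_option autoImplicit false

open MeasureTheory Set Function
open scoped ENNReal

namespace Pool.Agent.H588.SN6

open Pool.Agent.H770.SN

theorem t_iter : S_iter := by
  classical
  intro hStc hStm hK hP hBM1 hBMn n K T hKc hKs hT hTc hTu
  have key : ∀ s : Finset (Fin n), ∃ K' : Set (Fin n → ℝ), IsCompact K' ∧ (∀ x ∈ K', -x ∈ K') ∧
      (∀ j ∈ s, ∀ x ∈ K', Rf j x ∈ K') ∧ volume (K ∩ T) ≤ volume (K' ∩ T) ∧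
      volume (Pol K ∩ T) ≤ volume (Pol K' ∩ T) := by
    intro s
    induction s using Finset.induction_on with
    | empty => exact ⟨K, hKc, hKs, fun j hj => absurd hj (Finset.notMem_empty j), le_rfl, le_rfl⟩
    | insert i s hi ih =>
      obtain ⟨K', h1, h2, h3, h4, h5⟩ := ih
      obtain ⟨m1, m2, m3⟩ := hStm n i K'
      have c := hStc n i K' h1
      refine ⟨St i K', c, m1 h2, ?_, h4.trans ?_, h5.trans ?_⟩
      · intro j hj
        rcases Finset.mem_insert.1 hj with rfl | hj
        · exact m2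
        · exact m3 j (fun h => hi (h ▸ hj)) (h3 j hj)
      · exact hK hBM1 n i K' T h1.measurableSet c.measurableSet hT hTc (hTu i)
      · exact hP hBMn n i K' T h2 hT hTc hTu
  obtain ⟨K', h1, h2, h3, h4, h5⟩ := key Finset.univ
  exact ⟨K', h1, fun i => h3 i (Finset.mem_univ i), h4, h5⟩

end Pool.Agent.H588.SN6
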